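import Mathlib
import Pool.Agent.Q239.MP.Main

set_option autoImplicit false

/-!
# Q1 of MP_28b5ac_nt: many prime factors of `n j ± a^h k` simultaneously

The conjecture is true, with `c_K log log x` (`c_K > 0` depending on `K` only) instead of
`(log log x)^{1-ε}`.

Proof.  Let `κ = ⌊K⌋` and `N = ⌊√(δ log x)⌋`.  For `2 ≤ a ≤ κ` and `κ ≤ i ≤ N` there is a prime
`q = q(a,i) > 2i+1 > κ` modulo which `a²` has order `2i+1` (a primitive prime divisor), so the order
of `a` mod `q` is at most `4i+2`.  Let `Q` be the set of these primes; its product is at most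
`κ^{6κN²} ≤ x^{ε/4}`.  The residues of `n` modulo the primes of `Q` are chosen one after the other:
choosing a class `h mod ord_q(a)` of exponents and a triple `(j,k,±)` at random, a
given constraint is hit at `q` with probability `1/(T ord_q(a))`, `T ≤ 2κ³`, and
`∑_{q ∈ Q} 1/(T ord_q(a)) ≫_K log log x`.  The method of conditional
expectations (potential `∑ 2^{-hits}`) gives residues for which all but `≪ (log x)^{1-c'}` of
the `≍ log x` constraints are hit `≥ c log log x` times.  The few deficient constraints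
are repaired one by one with new primes `≤ (log x)^2 + 1`, whose product is `x^{o(1)}`.  By the
Chinese remainder theorem every `n` in some residue class modulo some `M ≤ x^{ε/2}` satisfies all the
constraints (apart from the `O(log x)` values of `n` where one of the numbers vanishes).
-/

namespace Pool.Agent.Results.MP_28b5ac_nt.ManyPrimeFactors

/-- `ω(z)`: the number of primes dividing `|z|`, with `ω(0) = 0`. -/
def omega (z : ℤ) : ℕ := z.natAbs.primeFactors.card

/-- `n` meets the bound `T` for the parameters `K`, `x`: both `ω(nj + a^h k) ≥ T` and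
`ω(nj - a^h k) ≥ T` for all integers `2 ≤ a ≤ K`, `1 ≤ j, k ≤ K`, `0 ≤ h ≤ K log x`. -/
def Meets (K x T : ℝ) (n : ℤ) : Prop :=
  ∀ a j k : ℤ, ∀ h : ℕ, 2 ≤ a → (a : ℝ) ≤ K → 1 ≤ j → (j : ℝ) ≤ K → 1 ≤ k → (k : ℝ) ≤ K →
    (h : ℝ) ≤ K * Real.log x →
      T ≤ omega (n * j + a ^ h * k) ∧ T ≤ omega (n * j - a ^ h * k)

/-- `n` is `(K, ε, x)`-good. -/
def Good (K ε x : ℝ) (n : ℤ) : Prop := Meets K x ((Real.log (Real.log x)) ^ (1 - ε)) n

/-- **Q1 is true** (first part), and more: with `c log log x`, `c = c(K) > 0`, in place of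
`(log log x)^{1-ε}` (second part). -/
theorem result :
    (∀ K : ℝ, 2 ≤ K → ∀ ε : ℝ, 0 < ε → ε < 1 → ∃ x₀ : ℝ, ∀ x : ℝ, x₀ ≤ x →
      x ^ (1 - ε) ≤
        (Set.ncard {n : ℤ | x ≤ n ∧ (n : ℝ) ≤ (1 + K⁻¹) * x ∧ Good K ε x n} : ℝ)) ∧
    (∀ K : ℝ, 2 ≤ K → ∃ c : ℝ, 0 < c ∧ ∀ ε : ℝ, 0 < ε → ε < 1 → ∃ x₀ : ℝ, ∀ x : ℝ, x₀ ≤ x →
      x ^ (1 - ε) ≤ (Set.ncard {n : ℤ | x ≤ n ∧ (n : ℝ) ≤ (1 + K⁻¹) * x ∧
        Meets K x (c * Real.log (Real.log x)) n} : ℝ)) :=
  ⟨fun K hK ε hε hε1 => Q239.MP.conjecture K hK ε hε hε1, fun K hK => Q239.MP.strong K hK⟩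

end Pool.Agent.Results.MP_28b5ac_nt.ManyPrimeFactors
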